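import Mathlib
import Pool.Agent.Q274.HD.Stm2

/-!
# Project HD (helper274), job FRO: Frobenius elements
-/

set_option autoImplicit false
set_option linter.unusedVariables false

namespace Pool.Agent.Q24.HD

open Pool.Agent.Q274.HD Polynomial
open Pool.Agent.Q274.BKC (GK OB Dec Ine)

theorem isGalQ : IsGalois ℚ QB := ⟨⟩

theorem coe_smul (σ : GQ) (x : ZB) : ((σ • x : ZB) : QB) = σ (x : QB) := rfl

/-- the fixed elements are the integers -/
theorem inv_int : Algebra.IsInvariant ℤ ZB GQ := by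
  have := isGalQ
  refine ⟨fun b hb => ?_⟩
  have h1 : ((b : ZB) : QB) ∈ Set.range (algebraMap ℚ QB) := by
    rw [InfiniteGalois.mem_range_algebraMap_iff_fixed]
    intro f
    have h2 := congrArg (fun z : ZB => (z : QB)) (hb f)
    exact h2
  obtain ⟨q, hq⟩ := h1
  have h3 : IsIntegral ℤ q := by
    have h4 : IsIntegral ℤ (algebraMap ℚ QB q) := by
      rw [hq]
      exact b.2
    exact (isIntegral_algebraMap_iff (algebraMap ℚ QB).injective).1 h4
  obtain ⟨n, hn⟩ := IsIntegrallyClosed.isIntegral_iff.1 h3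
  refine ⟨n, ?_⟩
  apply Subtype.ext
  change ((algebraMap ℤ ZB n : ZB) : QB) = (b : QB)
  rw [← hq, ← hn]
  simp

/-- the orbit maps are continuous for the discrete topology -/
theorem isOpen_smul_eq (x y : ZB) : IsOpen {τ : GQ | τ • x = y} := by
  by_cases h : ∃ τ₀ : GQ, τ₀ • x = y
  · obtain ⟨τ₀, hτ₀⟩ := h
    have h1 : IsOpen (MulAction.stabilizer GQ (x : QB) : Set GQ) :=
      stabilizer_isOpen_of_isIntegral (x : QB)
    have h2 : {τ : GQ | τ • x = y} = (fun τ => τ₀⁻¹ * τ) ⁻¹' (MulAction.stabilizer GQ (x : QB)) := by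
      ext τ
      rw [Set.mem_ofPred_eq, Set.mem_preimage, SetLike.mem_coe, MulAction.mem_stabilizer_iff,
        mul_smul, inv_smul_eq_iff, ← hτ₀]
      constructor
      · intro h3
        exact congrArg (fun z : ZB => (z : QB)) h3
      · intro h3
        exact Subtype.ext h3
    rw [h2]
    exact h1.preimage (continuous_const_mul _)
  · have h2 : {τ : GQ | τ • x = y} = ∅ := by
      ext τ
      simp only [Set.mem_ofPred_eq, Set.mem_empty_iff_false, iff_false]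
      exact fun h3 => h ⟨τ, h3⟩
    rw [h2]
    exact isOpen_empty

theorem isClosed_smul_mem (x : ZB) (S : Set ZB) : IsClosed {τ : GQ | τ • x ∈ S} := by
  have h1 : {τ : GQ | τ • x ∈ S}ᶜ = ⋃ y ∈ Sᶜ, {τ : GQ | τ • x = y} := by
    ext τ
    simp
  rw [← isOpen_compl_iff, h1]
  exact isOpen_biUnion fun y _ => isOpen_smul_eq x y

theorem isClosed_Dec (Q : Ideal ZB) : IsClosed (Dec Q) := by
  have h1 : Dec Q = ⋂ x : ZB, {τ : GQ | τ • x ∈ ({z | z ∈ Q ↔ x ∈ Q} : Set ZB)} := by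
    ext τ
    simp [Dec]
  rw [h1]
  exact isClosed_iInter fun x => isClosed_smul_mem x _

section frob

variable {l : ℕ} {Q : Ideal ZB}

theorem fin_frob (hl : l.Prime) (hQ : Q.IsMaximal) (hlQ : (l : ZB) ∈ Q) {φ : GQ}
    (hφ : ∀ x : ZB, φ • x - x ^ l ∈ Q) : φ ∈ Dec Q := by
  intro x
  have h1 := hφ x
  constructor
  · intro h2
    have h3 : x ^ l ∈ Q := by
      have h4 := Q.sub_mem h2 h1
      rwa [sub_sub_cancel] at h4
    exact hQ.isPrime.mem_of_pow_mem _ h3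
  · intro h2
    have h3 : x ^ l ∈ Q := Q.pow_mem_of_mem h2 l hl.pos
    have h4 := Q.add_mem h1 h3
    rwa [sub_add_cancel] at h4

theorem mul_mem_Dec {σ τ : GQ} (hσ : σ ∈ Dec Q) (hτ : τ ∈ Dec Q) : σ * τ ∈ Dec Q := by
  intro x
  rw [mul_smul, hσ, hτ]

theorem inv_mem_Dec {σ : GQ} (hσ : σ ∈ Dec Q) : σ⁻¹ ∈ Dec Q := by
  intro x
  have h := hσ (σ⁻¹ • x)
  rw [smul_inv_smul] at h
  exact h.symm

theorem one_mem_Dec : (1 : GQ) ∈ Dec Q := fun x => by rw [one_smul]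

theorem pow_mem_Dec {σ : GQ} (hσ : σ ∈ Dec Q) (m : ℕ) : σ ^ m ∈ Dec Q := by
  induction m with
  | zero => rw [pow_zero]; exact one_mem_Dec
  | succ m ih => rw [pow_succ]; exact mul_mem_Dec ih hσ

/-- the powers of a Frobenius element -/
theorem pow_frob {φ : GQ} (hD : φ ∈ Dec Q) (hφ : ∀ x : ZB, φ • x - x ^ l ∈ Q) (m : ℕ) (x : ZB) :
    φ ^ m • x - x ^ l ^ m ∈ Q := by
  induction m with
  | zero => simp
  | succ m ih =>
    have h1 : φ ^ (m + 1) • x - φ • (x ^ l ^ m) ∈ Q := by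
      rw [pow_succ', mul_smul, ← smul_sub]
      exact (hD _).2 ih
    have h2 := hφ (x ^ l ^ m)
    have h3 := Q.add_mem h1 h2
    rw [sub_add_sub_cancel, ← pow_mul, ← pow_succ] at h3
    exact h3

/-- the characteristic of the residue field -/
theorem charP_res (hl : l.Prime) (hQ : Q.IsMaximal) (hlQ : (l : ZB) ∈ Q) : CharP (ZB ⧸ Q) l := by
  have : Nontrivial (ZB ⧸ Q) := Ideal.Quotient.nontrivial_iff.2 hQ.ne_top
  have h0 : ((l : ℕ) : ZB ⧸ Q) = 0 := by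
    have h1 : Ideal.Quotient.mk Q (l : ZB) = 0 := Ideal.Quotient.eq_zero_iff_mem.2 hlQ
    rw [map_natCast] at h1
    exact h1
  obtain ⟨p, hp⟩ := CharP.exists (ZB ⧸ Q)
  have h2 : p ∣ l := (CharP.cast_eq_zero_iff (ZB ⧸ Q) p l).1 h0
  rcases (Nat.dvd_prime hl).1 h2 with h3 | h3
  · rw [h3] at hp
    exact absurd rfl (CharP.char_ne_one (ZB ⧸ Q) 1)
  · rw [← h3]
    exact hp

/-- existence of Frobenius elements -/
theorem exists_frob (hl : l.Prime) (hQ : Q.IsMaximal) (hlQ : (l : ZB) ∈ Q) :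
    ∃ φ : GQ, ∀ x : ZB, φ • x - x ^ l ∈ Q := by
  have := isGalQ
  have := inv_int
  have := hQ.isPrime
  let _ : TopologicalSpace ZB := ⊥
  have : DiscreteTopology ZB := ⟨rfl⟩
  have : ContinuousSMul GQ ZB := by
    refine ⟨?_⟩
    rw [continuous_def]
    intro U _
    have h1 : (fun p : GQ × ZB => p.1 • p.2) ⁻¹' U =
        ⋃ x : ZB, ⋃ y ∈ U, {τ : GQ | τ • x = y} ×ˢ {x} := by
      ext ⟨τ, x⟩
      simp
    rw [h1]
    exact isOpen_iUnion fun x => isOpen_biUnion fun y _ =>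
      (isOpen_smul_eq x y).prod (isOpen_discrete _)
  have : TotallyDisconnectedSpace GQ := inferInstance
  have : CompactSpace GQ := inferInstance
  let _ : Field (ZB ⧸ Q) := Ideal.Quotient.field Q
  have : Fact l.Prime := ⟨hl⟩
  have : CharP (ZB ⧸ Q) l := charP_res hl hQ hlQ
  have : ExpChar (ZB ⧸ Q) l := ExpChar.prime hl
  let P : Ideal ℤ := Q.under ℤ
  have hsurj : Function.Surjective (frobenius (ZB ⧸ Q) l) := by
    intro x
    obtain ⟨X, rfl⟩ := Ideal.Quotient.mk_surjective x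
    obtain ⟨z, hz⟩ := IsAlgClosed.exists_pow_nat_eq (X : QB) hl.pos
    have hzi : IsIntegral ℤ z := by
      refine IsIntegral.of_pow hl.pos ?_
      rw [hz]
      exact X.2
    refine ⟨Ideal.Quotient.mk Q (⟨z, hzi⟩ : ZB), ?_⟩
    rw [frobenius_def, ← map_pow]
    congr 1
    exact Subtype.ext hz
  let F₀ : (ZB ⧸ Q) →ₐ[ℤ ⧸ P] (ZB ⧸ Q) :=
    { frobenius (ZB ⧸ Q) l with
      commutes' := by
        intro r
        obtain ⟨n, rfl⟩ := Ideal.Quotient.mk_surjective r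
        have h1 : (Ideal.Quotient.mk P n : ℤ ⧸ P) = (n : ℤ ⧸ P) := eq_intCast _ n
        rw [h1, map_intCast]
        exact map_intCast (frobenius (ZB ⧸ Q) l) n }
  have hF₀ : ∀ x, F₀ x = x ^ l := fun x => rfl
  let F : (ZB ⧸ Q) ≃ₐ[ℤ ⧸ P] (ZB ⧸ Q) :=
    AlgEquiv.ofBijective F₀ ⟨(frobenius (ZB ⧸ Q) l).injective, hsurj⟩
  obtain ⟨⟨φ, hst⟩, hφ⟩ := Ideal.Quotient.stabilizerHom_surjective_of_profinite (G := GQ) P Q F
  refine ⟨φ, fun x => ?_⟩
  have h1 := congrArg (fun f : (ZB ⧸ Q) ≃ₐ[ℤ ⧸ P] (ZB ⧸ Q) => f (Ideal.Quotient.mk Q x)) hφ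
  simp only [Ideal.Quotient.stabilizerHom_apply] at h1
  have h2 : F (Ideal.Quotient.mk Q x) = Ideal.Quotient.mk Q (x ^ l) := by
    rw [map_pow]
    rfl
  rw [h2] at h1
  exact Ideal.Quotient.eq.1 h1

/-- an element of the decomposition group acts on a finite set as a power of Frobenius -/
theorem approx (hl : l.Prime) (hQ : Q.IsMaximal) (hlQ : (l : ZB) ∈ Q) {δ : GQ} (hδ : δ ∈ Dec Q)
    (F : Finset ZB) : ∃ m : ℕ, ∀ x ∈ F, δ • x - x ^ l ^ m ∈ Q := by
  have := hQ.isPrime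
  let _ : Field (ZB ⧸ Q) := Ideal.Quotient.field Q
  have : Fact l.Prime := ⟨hl⟩
  have : CharP (ZB ⧸ Q) l := charP_res hl hQ hlQ
  let _ : Algebra (ZMod l) (ZB ⧸ Q) := ZMod.algebra (ZB ⧸ Q) l
  let f₀ : (ZB ⧸ Q) →+* (ZB ⧸ Q) :=
    Ideal.quotientMap Q (MulSemiringAction.toRingHom GQ ZB δ) (fun x hx => (hδ x).2 hx)
  have hf₀ : ∀ x : ZB, f₀ (Ideal.Quotient.mk Q x) = Ideal.Quotient.mk Q (δ • x) := fun x => rfl
  let f : (ZB ⧸ Q) →ₐ[ZMod l] (ZB ⧸ Q) :=
    { f₀ with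
      commutes' := fun r => DFunLike.congr_fun
        (RingHom.ext_zmod (f₀.comp (algebraMap (ZMod l) (ZB ⧸ Q))) (algebraMap (ZMod l) (ZB ⧸ Q))) r }
  have hf : ∀ x : ZB, f (Ideal.Quotient.mk Q x) = Ideal.Quotient.mk Q (δ • x) := fun x => rfl
  have hint : ∀ x : ZB ⧸ Q, IsIntegral (ZMod l) x := by
    intro x
    obtain ⟨X, rfl⟩ := Ideal.Quotient.mk_surjective x
    have h1 : IsIntegral ℤ X := NumberField.RingOfIntegers.isIntegral X
    have h2 : IsIntegral ℤ (Ideal.Quotient.mk Q X) := h1.map (Ideal.Quotient.mk Q).toIntAlgHom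
    exact h2.tower_top
  let S : Set (ZB ⧸ Q) := (Ideal.Quotient.mk Q) '' (F : Set ZB)
  have hS : Finite S := (F.finite_toSet.image _).to_subtype
  have hfd : FiniteDimensional (ZMod l) (IntermediateField.adjoin (ZMod l) S) :=
    IntermediateField.finiteDimensional_adjoin fun x _ => hint x
  have hfin : Finite (IntermediateField.adjoin (ZMod l) S) := Module.finite_of_finite (ZMod l)
  obtain ⟨m, hm⟩ := (FiniteField.bijective_frobeniusAlgHom_pow (ZMod l)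
    (IntermediateField.adjoin (ZMod l) S)).2 (f.restrictNormal (IntermediateField.adjoin (ZMod l) S))
  refine ⟨m, fun x hx => ?_⟩
  have hxS : Ideal.Quotient.mk Q x ∈ IntermediateField.adjoin (ZMod l) S :=
    IntermediateField.subset_adjoin _ _ ⟨x, hx, rfl⟩
  have h1 := f.restrictNormal_commutes (IntermediateField.adjoin (ZMod l) S) ⟨_, hxS⟩
  have h2 : f.restrictNormal (IntermediateField.adjoin (ZMod l) S) ⟨_, hxS⟩ =
      (⟨_, hxS⟩ : IntermediateField.adjoin (ZMod l) S) ^ l ^ (m : ℕ) := by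
    rw [← hm]
    simp only [AlgHom.coe_pow, FiniteField.coe_frobeniusAlgHom, pow_iterate, ZMod.card]
  rw [h2, map_pow] at h1
  have h3 : (Ideal.Quotient.mk Q x) ^ l ^ (m : ℕ) = Ideal.Quotient.mk Q (δ • x) := h1
  rw [← map_pow] at h3
  exact Ideal.Quotient.eq.1 h3.symm

end frob

theorem t_FRO : S_FRO := by
  classical
  intro l hl Q hQ hlQ
  have := isGalQ
  obtain ⟨φ, hφ⟩ := exists_frob hl hQ hlQ
  have hφD : φ ∈ Dec Q := fin_frob hl hQ hlQ hφ
  refine ⟨φ, hφD, hφ, fun S hS hφS hI δ hδ => ?_⟩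
  have : CompactSpace GQ := inferInstance
  let t : Finset ZB → Set GQ := fun F =>
    ((S : Set GQ) ∩ Dec Q) ∩ ⋂ x ∈ F, {τ : GQ | τ • x ∈ {z : ZB | z - δ • x ∈ Q}}
  have ht : ∀ F, IsClosed (t F) := fun F =>
    (hS.inter (isClosed_Dec Q)).inter (isClosed_biInter fun x _ => isClosed_smul_mem x _)
  obtain ⟨τ, hτ⟩ := IsCompact.nonempty_iInter_of_directed_nonempty_isCompact_isClosed t
    (fun F G => ⟨F ∪ G,
      fun τ hτ => ⟨hτ.1, Set.mem_iInter₂.2 fun x hx =>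
        Set.mem_iInter₂.1 hτ.2 x (Finset.mem_union_left _ hx)⟩,
      fun τ hτ => ⟨hτ.1, Set.mem_iInter₂.2 fun x hx =>
        Set.mem_iInter₂.1 hτ.2 x (Finset.mem_union_right _ hx)⟩⟩)
    (fun F => by
      obtain ⟨m, hm⟩ := approx hl hQ hlQ hδ F
      refine ⟨φ ^ m, ⟨S.pow_mem hφS m, pow_mem_Dec hφD m⟩, Set.mem_iInter₂.2 fun x hx => ?_⟩
      have h1 := Q.sub_mem (pow_frob hφD hφ m x) (hm x hx)
      rw [sub_sub_sub_cancel_right] at h1
      exact h1)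
    (fun F => (ht F).isCompact) ht
  have hτ0 := Set.mem_iInter.1 hτ ∅
  have hτD : τ ∈ Dec Q := hτ0.1.2
  have hτx : ∀ x : ZB, τ • x - δ • x ∈ Q := fun x =>
    Set.mem_iInter₂.1 (Set.mem_iInter.1 hτ {x}).2 x (Finset.mem_singleton_self x)
  have h1 : τ⁻¹ * δ ∈ Ine Q := by
    intro x
    have h2 : (τ⁻¹ * δ) • x - x = -(τ⁻¹ • (τ • x - δ • x)) := by
      rw [smul_sub, inv_smul_smul, mul_smul, neg_sub]
    rw [h2]
    exact Q.neg_mem ((inv_mem_Dec hτD _).2 (hτx x))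
  have h3 := S.mul_mem hτ0.1.1 (hI _ h1)
  rwa [mul_inv_cancel_left] at h3

end Pool.Agent.Q24.HD
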